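import Pool.Agent.Helper22.PSI.MS2

set_option autoImplicit false

/-!
MP_237b58_an: the mean square of `Psi`.

`Psi t = ∑_{k ≥ 1} (2 / √k) cos (π ((3 k - 1) / 4 - t / k))`.  The series converges for every real
`t`, `Psi` is continuous, and for every `T ≥ 1` and both signs
`∫_T^{2 T} Psi (± t) ^ 2 dt = T log T + O (T)`, with the constant `600`.

The proof: the tail beyond `K = ⌈3 √T⌉` is `O (K ^ (-1/2))` by partial summation, and the off-diagonal
terms of the mean square of the head are, because `1 / (1/k - 1/l) = k l / (l - k)`, a Hilbert form.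
-/

namespace Pool.Agent.Results.MP_237b58_an.MeanSquare

open Finset Filter Topology

theorem result :
    ∃ Ψ : ℝ → ℝ,
      (∀ t : ℝ, Tendsto
        (fun N : ℕ => ∑ k ∈ Icc 1 N,
          2 / Real.sqrt k * Real.cos (Real.pi * ((3 * k - 1) / 4 - t / k))) atTop (𝓝 (Ψ t))) ∧
      Continuous Ψ ∧
      ∀ T : ℝ, 1 ≤ T →
        |(∫ t in T..2 * T, Ψ t ^ 2) - T * Real.log T| ≤ 600 * T ∧
        |(∫ t in T..2 * T, Ψ (-t) ^ 2) - T * Real.log T| ≤ 600 * T := by
  refine ⟨Helper22.PSI.Psi, fun t => Helper22.PSI.tendsto_Psi t, Helper22.PSI.continuous_Psi,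
    fun T hT => ⟨?_, ?_⟩⟩
  · have h := Helper22.PSI.mean_square 1 (Or.inl rfl) T hT
    simpa using h
  · have h := Helper22.PSI.mean_square (-1) (Or.inr rfl) T hT
    simpa using h

end Pool.Agent.Results.MP_237b58_an.MeanSquare
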